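import Pool.Agent.V1185.GB.Nec3

open Finset Pool.Agent.V1185.GB

namespace Pool.Agent.Results.MP_b91a69_an.Inclusion

/-- `ΓBV ⊂ ΛBV_c` holds if and only if for every `ε > 0` there is `K ≥ 1` with
`∑_{i ≤ Kn} 1/λ_i ≤ ε K ∑_{i ≤ n} 1/γ_i` for all large `n`. -/
theorem result {a b : ℝ} (hab : a < b) {g l : ℕ → ℝ} (hg : LambdaSeq g) (hl : LambdaSeq l) :
    (∀ f : ℝ → ℝ, BV a b g f → BVc a b l f) ↔
      ∀ ε : ℝ, 0 < ε → ∃ K : ℕ, 1 ≤ K ∧ ∃ n₀ : ℕ, ∀ n ≥ n₀,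
        ∑ i ∈ range (K * n), 1 / l i ≤ ε * K * ∑ i ∈ range n, 1 / g i :=
  main hab hg hl

end Pool.Agent.Results.MP_b91a69_an.Inclusion
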